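import Pool.Agent.V11151.HM.Comb

/-!
# Monotone non-homotopic drawings in which any two edges cross at most `k` times

If an `n`-vertex multigraph has a monotone non-homotopic drawing in which any two edges cross at
most `k` times, then it has at most `3n - 5 + 4 (C(n-2,2) + ... + C(n-2,k+1))` edges (for
`n ≥ 2`); in particular at most `4 (C(n,1) + ... + C(n,k+1))`.

Proof.  Order the vertices from left to right.  A monotone edge is determined up to homotopy by
its two ends and by the vertices between them that it passes above, and two edges cross at least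
as often as the difference of their above/below patterns changes sign.  Contract the last two
vertices: a class has at most three preimages, and the classes with at least two, or with three,
preimages form two families of words that all end at the last vertex and in which the number of
sign changes is at most `k - 1`.  The same contraction bounds those families.
-/

open Set

namespace Pool.Agent.Results.MP_6a261b_co.MonotoneBound

open HM

/-- A drawing of a multigraph with vertex set `V` and edge set `E`: the vertices are distinct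
points of the plane, every edge `e` is a continuous curve `[0,1] → ℝ²` between its end-vertices
which meets no vertex at the times in `(0,1)`, and any two edges (an edge and itself included)
have finitely many crossings. -/
structure Drawing (V E : Type) where
  src : E → V
  tgt : E → V
  pos : V → ℝ × ℝ
  curve : E → ℝ → ℝ × ℝ
  pos_inj : Function.Injective pos
  curve_cont : ∀ e, ContinuousOn (curve e) (Icc 0 1)
  curve_zero : ∀ e, curve e 0 = pos (src e)
  curve_one : ∀ e, curve e 1 = pos (tgt e)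
  avoid : ∀ e v, ∀ t ∈ Ioo (0 : ℝ) 1, curve e t ≠ pos v
  finite_meet : ∀ e f, {p : ℝ × ℝ | p.1 ∈ Ioo (0 : ℝ) 1 ∧ p.2 ∈ Ioo (0 : ℝ) 1 ∧
    (e, p.1) ≠ (f, p.2) ∧ curve e p.1 = curve f p.2}.Finite

namespace Drawing

variable {V E : Type} (D : Drawing V E)

/-- Every edge meets each vertical line in at most one point. -/
def Monotone : Prop :=
  ∀ e, ∀ s ∈ Icc (0 : ℝ) 1, ∀ t ∈ Icc (0 : ℝ) 1,
    (D.curve e s).1 = (D.curve e t).1 → D.curve e s = D.curve e t

/-- The edge `e` can be deformed to the curve `c`, its two ends being kept fixed, without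
touching a vertex other than its ends. -/
def DeformsTo (e : E) (c : ℝ → ℝ × ℝ) : Prop :=
  ∃ H : ℝ × ℝ → ℝ × ℝ, ContinuousOn H (Icc (0 : ℝ) 1 ×ˢ Icc (0 : ℝ) 1) ∧
    (∀ t ∈ Icc (0 : ℝ) 1, H (0, t) = D.curve e t ∧ H (1, t) = c t) ∧
    (∀ r ∈ Icc (0 : ℝ) 1, H (r, 0) = D.pos (D.src e) ∧ H (r, 1) = D.pos (D.tgt e)) ∧
    ∀ r ∈ Icc (0 : ℝ) 1, ∀ t ∈ Icc (0 : ℝ) 1, ∀ x, x ≠ D.src e → x ≠ D.tgt e →
      H (r, t) ≠ D.pos x

/-- `e` and `f` are parallel (they have the same end-vertices) and homotopic; if they are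
parametrised in opposite directions, `f` is first reversed. -/
def Homotopic (e f : E) : Prop :=
  (D.src e = D.src f ∧ D.tgt e = D.tgt f ∧ D.DeformsTo e (D.curve f)) ∨
  (D.src e = D.tgt f ∧ D.tgt e = D.src f ∧ D.DeformsTo e (fun t => D.curve f (1 - t)))

/-- No two parallel edges are homotopic. -/
def NonHomotopic : Prop := ∀ e f, e ≠ f → ¬ D.Homotopic e f

/-- Any two distinct edges cross at most `k` times. -/
def CrossAtMost (k : ℕ) : Prop :=
  ∀ e f, e ≠ f → {p : ℝ × ℝ | p.1 ∈ Ioo (0 : ℝ) 1 ∧ p.2 ∈ Ioo (0 : ℝ) 1 ∧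
    D.curve e p.1 = D.curve f p.2}.encard ≤ k

end Drawing

/-! ### A monotone curve is a graph -/

lemma x_inj {φ : ℝ → ℝ × ℝ} (hc : ContinuousOn φ (Icc 0 1))
    (hm : ∀ s ∈ Icc (0 : ℝ) 1, ∀ t ∈ Icc (0 : ℝ) 1, (φ s).1 = (φ t).1 → φ s = φ t)
    (hf : {p : ℝ × ℝ | p.1 ∈ Ioo (0 : ℝ) 1 ∧ p.2 ∈ Ioo (0 : ℝ) 1 ∧ p.1 ≠ p.2 ∧
      φ p.1 = φ p.2}.Finite) :
    InjOn (fun t => (φ t).1) (Icc 0 1) := by
  have hx : ContinuousOn (fun t => (φ t).1) (Icc 0 1) := continuous_fst.comp_continuousOn hc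
  -- no coincidence for s < t
  have key : ∀ s ∈ Icc (0 : ℝ) 1, ∀ t ∈ Icc (0 : ℝ) 1, s < t → (φ s).1 = (φ t).1 → False := by
    intro s hs t ht hst hE
    by_cases hcon : ∀ c ∈ Ioo s t, (φ c).1 = (φ s).1
    · -- constant
      have hinf : (Ioo s ((s + t) / 2)).Infinite := Ioo_infinite (by linarith)
      apply hinf
      apply (hf.image (fun p : ℝ × ℝ => p.1)).subset
      intro c hcc
      refine ⟨(c, (s + t) / 2), ⟨⟨by linarith [hcc.1, hs.1], by linarith [hcc.2, ht.2]⟩,
        ⟨by simp only; linarith [hs.1, hcc.1], by simp only; linarith [ht.2]⟩,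
        by simp only; exact ne_of_lt hcc.2, ?_⟩, rfl⟩
      simp only
      apply hm c ⟨by linarith [hcc.1, hs.1], by linarith [hcc.2, ht.2]⟩ _
        ⟨by linarith [hs.1], by linarith [ht.2]⟩
      rw [hcon c ⟨hcc.1, by linarith [hcc.2]⟩, hcon ((s + t) / 2) ⟨by linarith, by linarith⟩]
    · push Not at hcon
      obtain ⟨c, hcc, hne⟩ := hcon
      have hsub1 : Icc s c ⊆ Icc (0 : ℝ) 1 := Icc_subset_Icc hs.1 (by linarith [hcc.2, ht.2])
      have hsub2 : Icc c t ⊆ Icc (0 : ℝ) 1 := Icc_subset_Icc (by linarith [hcc.1, hs.1]) ht.2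
      -- all intermediate values are taken twice
      have twice : ∀ I : Set ℝ, I.Infinite → (∀ y ∈ I, (∃ a ∈ Ioo s c, (φ a).1 = y) ∧
          ∃ b ∈ Ioo c t, (φ b).1 = y) → False := by
        intro I hI h
        apply hI
        apply (hf.image (fun p : ℝ × ℝ => (φ p.1).1)).subset
        intro y hy
        obtain ⟨⟨a, ha, ha'⟩, b, hb, hb'⟩ := h y hy
        refine ⟨(a, b), ⟨⟨by linarith [ha.1, hs.1], by linarith [ha.2, hcc.2, ht.2]⟩,
          ⟨by linarith [hb.1, hcc.1, hs.1], by linarith [hb.2, ht.2]⟩,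
          by simp only; exact ne_of_lt (by linarith [ha.2, hb.1]), ?_⟩, ha'⟩
        simp only
        apply hm a ⟨by linarith [ha.1, hs.1], by linarith [ha.2, hcc.2, ht.2]⟩ b
          ⟨by linarith [hb.1, hcc.1, hs.1], by linarith [hb.2, ht.2]⟩
        rw [ha', hb']
      rcases lt_or_gt_of_ne hne with h | h
      · apply twice (Ioo (φ c).1 (φ s).1) (Ioo_infinite h)
        intro y hy
        constructor
        · obtain ⟨a, ha, ha'⟩ := intermediate_value_Ioo' hcc.1.le (hx.mono hsub1) hy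
          exact ⟨a, ha, ha'⟩
        · rw [hE] at hy
          obtain ⟨a, ha, ha'⟩ := intermediate_value_Ioo hcc.2.le (hx.mono hsub2) hy
          exact ⟨a, ha, ha'⟩
      · apply twice (Ioo (φ s).1 (φ c).1) (Ioo_infinite h)
        intro y hy
        constructor
        · obtain ⟨a, ha, ha'⟩ := intermediate_value_Ioo hcc.1.le (hx.mono hsub1) hy
          exact ⟨a, ha, ha'⟩
        · rw [hE] at hy
          obtain ⟨a, ha, ha'⟩ := intermediate_value_Ioo' hcc.2.le (hx.mono hsub2) hy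
          exact ⟨a, ha, ha'⟩
  intro s hs t ht hE
  rcases lt_trichotomy s t with h | h | h
  · exact (key s hs t ht h hE).elim
  · exact h
  · exact (key t ht s hs h hE.symm).elim

lemma graph_fun {φ : ℝ → ℝ × ℝ} (hc : ContinuousOn φ (Icc 0 1))
    (hi : InjOn (fun t => (φ t).1) (Icc 0 1)) :
    ∃ g : ℝ → ℝ, Continuous g ∧ ∀ t ∈ Icc (0 : ℝ) 1, (φ t).2 = g (φ t).1 := by
  have hx : ContinuousOn (fun t => (φ t).1) (Icc 0 1) := continuous_fst.comp_continuousOn hc
  set K : Set ℝ := (fun t => (φ t).1) '' Icc 0 1 with hK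
  have hKc : IsClosed K := (isCompact_Icc.image_of_continuousOn hx).isClosed
  let F : Icc (0 : ℝ) 1 → K := fun t => ⟨(φ t).1, mem_image_of_mem (fun t => (φ t).1) t.2⟩
  have hF : Continuous F := by
    apply Continuous.subtype_mk
    exact continuousOn_iff_continuous_domRestrict.mp hx
  have hb : Function.Bijective F := by
    constructor
    · intro a b hab
      apply Subtype.ext
      apply hi a.2 b.2
      exact congrArg Subtype.val hab
    · rintro ⟨y, t, ht, rfl⟩
      exact ⟨⟨t, ht⟩, rfl⟩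
  let h : Icc (0 : ℝ) 1 ≃ₜ K :=
    Continuous.homeoOfEquivCompactToT2 (f := Equiv.ofBijective F hb) hF
  have hφ : Continuous (fun t : Icc (0 : ℝ) 1 => (φ t).2) :=
    continuous_snd.comp (continuousOn_iff_continuous_domRestrict.mp hc)
  let g0 : C(K, ℝ) := ⟨fun k => (φ (h.symm k)).2, hφ.comp h.symm.continuous⟩
  obtain ⟨g, hg⟩ := ContinuousMap.exists_restrict_eq hKc g0
  refine ⟨g, g.continuous, ?_⟩
  intro t ht
  have h1 : g0 (F ⟨t, ht⟩) = (φ t).2 := by
    change (φ (h.symm (F ⟨t, ht⟩))).2 = (φ t).2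
    have : h.symm (F ⟨t, ht⟩) = ⟨t, ht⟩ := h.symm_apply_apply ⟨t, ht⟩
    rw [this]
  rw [← h1, ← hg]
  rfl

/-! ### Data of an edge -/

/-- Left end, right end, height function. -/
structure EdgeData {V E : Type} (D : Drawing V E) (e : E) (g : ℝ → ℝ) (l r : V) : Prop where
  cont : Continuous g
  height : ∀ t ∈ Icc (0 : ℝ) 1, (D.curve e t).2 = g (D.curve e t).1
  ends : (l = D.src e ∧ r = D.tgt e) ∨ (l = D.tgt e ∧ r = D.src e)
  lt : (D.pos l).1 < (D.pos r).1
  range : ∀ t ∈ Icc (0 : ℝ) 1, (D.curve e t).1 ∈ Icc (D.pos l).1 (D.pos r).1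
  surj : ∀ c ∈ Icc (D.pos l).1 (D.pos r).1, ∃ t ∈ Icc (0 : ℝ) 1, (D.curve e t).1 = c
  hl : g (D.pos l).1 = (D.pos l).2
  hr : g (D.pos r).1 = (D.pos r).2

lemma edge_data {V E : Type} (D : Drawing V E) (hm : D.Monotone) (e : E) :
    ∃ (g : ℝ → ℝ) (l r : V), EdgeData D e g l r := by
  have hfin : {p : ℝ × ℝ | p.1 ∈ Ioo (0 : ℝ) 1 ∧ p.2 ∈ Ioo (0 : ℝ) 1 ∧ p.1 ≠ p.2 ∧
      D.curve e p.1 = D.curve e p.2}.Finite := by
    apply (D.finite_meet e e).subset
    rintro p ⟨h1, h2, h3, h4⟩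
    exact ⟨h1, h2, fun h => h3 (Prod.ext_iff.mp h).2, h4⟩
  have hi := x_inj (D.curve_cont e) (hm e) hfin
  obtain ⟨g, hg, hgt⟩ := graph_fun (D.curve_cont e) hi
  have hx : ContinuousOn (fun t => (D.curve e t).1) (Icc 0 1) :=
    continuous_fst.comp_continuousOn (D.curve_cont e)
  have m0 : (0 : ℝ) ∈ Icc (0 : ℝ) 1 := ⟨le_refl _, zero_le_one⟩
  have m1 : (1 : ℝ) ∈ Icc (0 : ℝ) 1 := ⟨zero_le_one, le_refl _⟩
  have g0 : g (D.pos (D.src e)).1 = (D.pos (D.src e)).2 := by
    rw [← D.curve_zero e]; exact (hgt 0 m0).symm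
  have g1 : g (D.pos (D.tgt e)).1 = (D.pos (D.tgt e)).2 := by
    rw [← D.curve_one e]; exact (hgt 1 m1).symm
  refine ⟨g, ?_⟩
  rcases hx.strictMonoOn_of_injOn_Icc' zero_le_one hi with h | h
  · refine ⟨D.src e, D.tgt e, hg, hgt, Or.inl ⟨rfl, rfl⟩, ?_, ?_, ?_, g0, g1⟩
    · rw [← D.curve_zero e, ← D.curve_one e]; exact h m0 m1 zero_lt_one
    · intro t ht
      rw [← D.curve_zero e, ← D.curve_one e]
      exact ⟨h.monotoneOn m0 ht ht.1, h.monotoneOn ht m1 ht.2⟩
    · intro c hc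
      rw [← D.curve_zero e, ← D.curve_one e] at hc
      obtain ⟨t, ht, h2⟩ := intermediate_value_Icc zero_le_one hx hc
      exact ⟨t, ht, h2⟩
  · refine ⟨D.tgt e, D.src e, hg, hgt, Or.inr ⟨rfl, rfl⟩, ?_, ?_, ?_, g1, g0⟩
    · rw [← D.curve_zero e, ← D.curve_one e]; exact h m0 m1 zero_lt_one
    · intro t ht
      rw [← D.curve_zero e, ← D.curve_one e]
      exact ⟨h.antitoneOn ht m1 ht.2, h.antitoneOn m0 ht ht.1⟩
    · intro c hc
      rw [← D.curve_zero e, ← D.curve_one e] at hc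
      obtain ⟨t, ht, h2⟩ := intermediate_value_Icc' zero_le_one hx hc
      exact ⟨t, ht, h2⟩

lemma exists_idx {V : Type} [Fintype V] (p : V → ℝ × ℝ) (hp : Function.Injective p) :
    ∃ idx : V → ℕ, (∀ v, idx v < Fintype.card V) ∧ Function.Injective idx ∧
      (∀ v w, (p v).1 < (p w).1 → idx v < idx w) ∧
      (∀ m < Fintype.card V, ∃ v, idx v = m) := by
  classical
  letI : LinearOrder V := LinearOrder.lift' (fun v => toLex (p v))
    (fun a b h => hp (toLex.injective h))
  let σ := monoEquivOfFin V (rfl : Fintype.card V = Fintype.card V)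
  refine ⟨fun v => (σ.symm v : ℕ), fun v => (σ.symm v).2, ?_, ?_, ?_⟩
  · intro a b h
    exact σ.symm.injective (Fin.ext h)
  · intro v w h
    have h1 : v < w := by
      change toLex (p v) < toLex (p w)
      rw [Prod.Lex.toLex_lt_toLex]
      left; exact h
    exact σ.symm.strictMono h1
  · intro m hm
    refine ⟨σ ⟨m, hm⟩, ?_⟩
    change ((σ.symm (σ ⟨m, hm⟩) : Fin _) : ℕ) = m
    rw [OrderIso.symm_apply_apply]

section main

variable {V E : Type} (D : Drawing V E) (idx : V → ℕ) (g : E → ℝ → ℝ) (l r : E → V)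

open Classical in
/-- The word of an edge. -/
noncomputable def word (e : E) : Ed :=
  (idx (l e), idx (r e), (Finset.Ioo (idx (l e)) (idx (r e))).filter
    (fun u => ∃ v, idx v = u ∧ (D.pos v).2 < g e (D.pos v).1))

variable {D idx g l r}

lemma word_sub (e : E) : (word D idx g l r e).2.2 ⊆
    Finset.Ioo (word D idx g l r e).1 (word D idx g l r e).2.1 := by
  classical
  unfold word
  exact Finset.filter_subset _ _

lemma sgn (hd : ∀ e, EdgeData D e (g e) (l e) (r e)) (hinj : Function.Injective idx)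
    (hmon : ∀ v w, (D.pos v).1 < (D.pos w).1 → idx v < idx w) (e : E) (v : V)
    (hR : R (word D idx g l r e) (idx v)) :
    (D.pos (l e)).1 ≤ (D.pos v).1 ∧ (D.pos v).1 ≤ (D.pos (r e)).1 ∧
    ((vl (word D idx g l r e) (idx v) = 1 ∧ (D.pos v).2 < g e (D.pos v).1 ∧
        v ≠ l e ∧ v ≠ r e) ∨
     (vl (word D idx g l r e) (idx v) = 0 ∧ g e (D.pos v).1 = (D.pos v).2 ∧
        (v = l e ∨ v = r e)) ∨
     (vl (word D idx g l r e) (idx v) = -1 ∧ g e (D.pos v).1 < (D.pos v).2 ∧
        v ≠ l e ∧ v ≠ r e)) := by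
  classical
  have h1 : idx (l e) ≤ idx v := hR.1
  have h2 : idx v ≤ idx (r e) := hR.2
  have x1 : (D.pos (l e)).1 ≤ (D.pos v).1 := by
    by_contra h; push Not at h
    have := hmon _ _ h; omega
  have x2 : (D.pos v).1 ≤ (D.pos (r e)).1 := by
    by_contra h; push Not at h
    have := hmon _ _ h; omega
  refine ⟨x1, x2, ?_⟩
  by_cases hvl : v = l e
  · right; left
    refine ⟨?_, ?_, Or.inl hvl⟩
    · simp only [vl, word]; rw [if_pos (Or.inl (by rw [hvl]))]
    · rw [hvl]; exact (hd e).hl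
  by_cases hvr : v = r e
  · right; left
    refine ⟨?_, ?_, Or.inr hvr⟩
    · simp only [vl, word]; rw [if_pos (Or.inr (by rw [hvr]))]
    · rw [hvr]; exact (hd e).hr
  have i1 : idx v ≠ idx (l e) := fun h => hvl (hinj h)
  have i2 : idx v ≠ idx (r e) := fun h => hvr (hinj h)
  have hne : g e (D.pos v).1 ≠ (D.pos v).2 := by
    intro h
    obtain ⟨t, ht, ht'⟩ := (hd e).surj _ ⟨x1, x2⟩
    have h3 : D.curve e t = D.pos v := by
      apply Prod.ext ht'
      rw [(hd e).height t ht, ht', h]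
    rcases eq_or_lt_of_le ht.1 with h4 | h4
    · rw [← h4, D.curve_zero] at h3
      have := D.pos_inj h3
      rcases (hd e).ends with ⟨h5, h6⟩ | ⟨h5, h6⟩
      · exact hvl (by rw [h5, this])
      · exact hvr (by rw [h6, this])
    rcases eq_or_lt_of_le ht.2 with h5 | h5
    · rw [h5, D.curve_one] at h3
      have := D.pos_inj h3
      rcases (hd e).ends with ⟨h5, h6⟩ | ⟨h5, h6⟩
      · exact hvr (by rw [h6, this])
      · exact hvl (by rw [h5, this])
    exact D.avoid e v t ⟨h4, h5⟩ h3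
  have hmem : idx v ∈ (word D idx g l r e).2.2 ↔ (D.pos v).2 < g e (D.pos v).1 := by
    simp only [word, Finset.mem_filter, Finset.mem_Ioo]
    constructor
    · rintro ⟨-, w, hw, hw'⟩
      rw [hinj hw] at hw'; exact hw'
    · intro h
      exact ⟨⟨by omega, by omega⟩, v, rfl, h⟩
  have hnot : ¬ (idx v = (word D idx g l r e).1 ∨ idx v = (word D idx g l r e).2.1) := by
    simp only [word]; omega
  rcases lt_or_gt_of_ne hne with h | h
  · right; right
    refine ⟨?_, h, hvl, hvr⟩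
    unfold vl
    rw [if_neg hnot, if_neg (fun h' => by have := hmem.mp h'; linarith)]
  · left
    refine ⟨?_, h, hvl, hvr⟩
    unfold vl
    rw [if_neg hnot, if_pos (hmem.mpr h)]

lemma chain (hd : ∀ e, EdgeData D e (g e) (l e) (r e)) (hinj : Function.Injective idx)
    (hmon : ∀ v w, (D.pos v).1 < (D.pos w).1 → idx v < idx w) {n : ℕ}
    (hn : ∀ v, idx v < n) (hsur : ∀ m < n, ∃ v, idx v = m) :
    ∀ (K : ℕ) (e f : E) (t : ℕ), P K (word D idx g l r e) (word D idx g l r f) t →
      ∃ v, idx v < t ∧ (D.pos (l e)).1 ≤ (D.pos v).1 ∧ (D.pos v).1 ≤ (D.pos (r e)).1 ∧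
        (D.pos (l f)).1 ≤ (D.pos v).1 ∧ (D.pos v).1 ≤ (D.pos (r f)).1 ∧
        g e (D.pos v).1 < g f (D.pos v).1 ∧
        ∃ Z : Finset ℝ, Z.card = K ∧ ∀ c ∈ Z, c < (D.pos v).1 ∧ (D.pos (l e)).1 < c ∧
          (D.pos (l f)).1 < c ∧ g e c = g f c := by
  -- a strict comparison of values gives a strict comparison of heights
  have base : ∀ (e f : E) (u : ℕ), R (word D idx g l r e) u → R (word D idx g l r f) u →
      vl (word D idx g l r e) u < vl (word D idx g l r f) u →
      ∃ v, idx v = u ∧ (D.pos (l e)).1 ≤ (D.pos v).1 ∧ (D.pos v).1 ≤ (D.pos (r e)).1 ∧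
        (D.pos (l f)).1 ≤ (D.pos v).1 ∧ (D.pos v).1 ≤ (D.pos (r f)).1 ∧
        g e (D.pos v).1 < g f (D.pos v).1 := by
    intro e f u h1 h2 h3
    have hu : u < n := lt_of_le_of_lt h1.2 (hn (r e))
    obtain ⟨v, rfl⟩ := hsur u hu
    obtain ⟨a1, a2, a3⟩ := sgn hd hinj hmon e v h1
    obtain ⟨b1, b2, b3⟩ := sgn hd hinj hmon f v h2
    refine ⟨v, rfl, a1, a2, b1, b2, ?_⟩
    rcases a3 with ⟨c1, c2, -⟩ | ⟨c1, c2, -⟩ | ⟨c1, c2, -⟩ <;>
      rcases b3 with ⟨d1, d2, -⟩ | ⟨d1, d2, -⟩ | ⟨d1, d2, -⟩ <;>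
      rw [c1, d1] at h3 <;> linarith
  intro K
  induction K with
  | zero =>
    intro e f t hp
    obtain ⟨u, hu, h1, h2, h3⟩ := hp
    obtain ⟨v, hv, a1, a2, a3, a4, a5⟩ := base e f u h1 h2 h3
    exact ⟨v, by omega, a1, a2, a3, a4, a5, ∅, rfl, by simp⟩
  | succ K ih =>
    intro e f t hp
    obtain ⟨u, hu, h1, h2, h3, h4⟩ := hp
    obtain ⟨v, hv, a1, a2, a3, a4, a5⟩ := base e f u h1 h2 h3
    obtain ⟨w, hw, b1, b2, b3, b4, b5, Z, hZ, hZ'⟩ := ih f e u h4
    have hxle : (D.pos w).1 ≤ (D.pos v).1 := by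
      by_contra h; push Not at h
      have := hmon _ _ h; omega
    have hxlt : (D.pos w).1 < (D.pos v).1 := by
      rcases eq_or_lt_of_le hxle with h | h
      · exfalso; rw [h] at b5; linarith
      · exact h
    have hcont : ContinuousOn (fun x => g e x - g f x) (Icc (D.pos w).1 (D.pos v).1) :=
      (((hd e).cont).sub ((hd f).cont)).continuousOn
    obtain ⟨c, hc, hc'⟩ := intermediate_value_Ioo' hxle hcont
      (show (0 : ℝ) ∈ Ioo (g e (D.pos v).1 - g f (D.pos v).1)
        (g e (D.pos w).1 - g f (D.pos w).1) from ⟨by linarith, by linarith⟩)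
    have hc2 : g e c - g f c = 0 := hc'
    have hnotin : c ∉ Z := by
      intro h
      have := (hZ' c h).1
      linarith [hc.1]
    refine ⟨v, by omega, a1, a2, a3, a4, a5, insert c Z, ?_, ?_⟩
    · rw [Finset.card_insert_of_notMem hnotin, hZ]
    · intro c' hc'
      rcases Finset.mem_insert.mp hc' with h | h
      · subst h
        exact ⟨hc.2, by linarith [hc.1], by linarith [hc.1], by linarith⟩
      · obtain ⟨d1, d2, d3, d4⟩ := hZ' c' h
        exact ⟨by linarith, d3, d2, d4.symm⟩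

lemma not_P (hd : ∀ e, EdgeData D e (g e) (l e) (r e)) (hinj : Function.Injective idx)
    (hmon : ∀ v w, (D.pos v).1 < (D.pos w).1 → idx v < idx w) {n : ℕ}
    (hn : ∀ v, idx v < n) (hsur : ∀ m < n, ∃ v, idx v = m) {k : ℕ} (hk : D.CrossAtMost k)
    {e f : E} (hne : e ≠ f) (t : ℕ) :
    ¬ P (k + 1) (word D idx g l r e) (word D idx g l r f) t := by
  intro hp
  obtain ⟨v, -, a1, a2, a3, a4, -, Z, hZ, hZ'⟩ := chain hd hinj hmon hn hsur (k + 1) e f t hp
  set M := {p : ℝ × ℝ | p.1 ∈ Ioo (0 : ℝ) 1 ∧ p.2 ∈ Ioo (0 : ℝ) 1 ∧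
    D.curve e p.1 = D.curve f p.2} with hM
  have inner : ∀ (e' : E) (c : ℝ), (D.pos (l e')).1 < c → c < (D.pos (r e')).1 →
      ∃ s ∈ Ioo (0 : ℝ) 1, (D.curve e' s).1 = c := by
    intro e' c h1 h2
    obtain ⟨s, hs, hs'⟩ := (hd e').surj c ⟨h1.le, h2.le⟩
    refine ⟨s, ⟨lt_of_le_of_ne hs.1 ?_, lt_of_le_of_ne hs.2 ?_⟩, hs'⟩
    · intro h
      rw [← h, D.curve_zero] at hs'
      rcases (hd e').ends with ⟨h5, h6⟩ | ⟨h5, h6⟩
      · rw [← h5] at hs'; linarith
      · rw [← h6] at hs'; linarith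
    · intro h
      rw [h, D.curve_one] at hs'
      rcases (hd e').ends with ⟨h5, h6⟩ | ⟨h5, h6⟩
      · rw [← h6] at hs'; linarith
      · rw [← h5] at hs'; linarith
  have hsub : (Z : Set ℝ) ⊆ (fun p : ℝ × ℝ => (D.curve e p.1).1) '' M := by
    intro c hc
    obtain ⟨d1, d2, d3, d4⟩ := hZ' c hc
    obtain ⟨s, hs, hs'⟩ := inner e c d2 (by linarith)
    obtain ⟨s2, hs2, hs2'⟩ := inner f c d3 (by linarith)
    refine ⟨(s, s2), ⟨hs, hs2, ?_⟩, hs'⟩
    apply Prod.ext
    · simp only; rw [hs', hs2']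
    · simp only
      rw [(hd e).height s ⟨hs.1.le, hs.2.le⟩, (hd f).height s2 ⟨hs2.1.le, hs2.2.le⟩, hs', hs2', d4]
  have h1 : ((Z : Set ℝ)).encard ≤ M.encard :=
    le_trans (encard_le_encard hsub) (encard_image_le _ _)
  rw [encard_coe_eq_coe_finsetCard, hZ] at h1
  have h2 : ((k + 1 : ℕ) : ℕ∞) ≤ (k : ℕ∞) := le_trans h1 (hk e f hne)
  have h3 : k + 1 ≤ k := by exact_mod_cast h2
  omega

lemma word_inj (hd : ∀ e, EdgeData D e (g e) (l e) (r e)) (hinj : Function.Injective idx)
    (hmon : ∀ v w, (D.pos v).1 < (D.pos w).1 → idx v < idx w)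
    (hnh : D.NonHomotopic) : Function.Injective (word D idx g l r) := by
  intro e f hw
  by_contra hne
  apply hnh e f hne
  have hl' : l e = l f := hinj (congrArg (fun w : Ed => w.1) hw)
  have hr' : r e = r f := hinj (congrArg (fun w : Ed => w.2.1) hw)
  -- avoidance
  have av : ∀ X ∈ Icc (D.pos (l e)).1 (D.pos (r e)).1, ∀ q ∈ Icc (0 : ℝ) 1, ∀ x,
      x ≠ l e → x ≠ r e → (X, (1 - q) * g e X + q * g f X) ≠ D.pos x := by
    intro X hX q hq x hxl hxr hE
    have e1 : (D.pos x).1 = X := by rw [← hE]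
    have e2 : (D.pos x).2 = (1 - q) * g e X + q * g f X := by rw [← hE]
    have hfl : g f (D.pos (l e)).1 = (D.pos (l e)).2 := by rw [hl']; exact (hd f).hl
    have hfr : g f (D.pos (r e)).1 = (D.pos (r e)).2 := by rw [hr']; exact (hd f).hr
    rcases eq_or_lt_of_le hX.1 with h | h
    · apply hxl
      apply D.pos_inj
      apply Prod.ext
      · rw [e1, h]
      · rw [e2, ← h, (hd e).hl, hfl]; ring
    rcases eq_or_lt_of_le hX.2 with h' | h'
    · apply hxr
      apply D.pos_inj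
      apply Prod.ext
      · rw [e1, h']
      · rw [e2, h', (hd e).hr, hfr]; ring
    have i1 : idx (l e) < idx x := hmon _ _ (by rw [e1]; exact h)
    have i2 : idx x < idx (r e) := hmon _ _ (by rw [e1]; exact h')
    have hRe : R (word D idx g l r e) (idx x) := ⟨i1.le, i2.le⟩
    have hRf : R (word D idx g l r f) (idx x) := by rw [← hw]; exact hRe
    obtain ⟨-, -, a3⟩ := sgn hd hinj hmon e x hRe
    obtain ⟨-, -, b3⟩ := sgn hd hinj hmon f x hRf
    rw [← hw] at b3
    rw [e1] at a3 b3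
    have q1 : 0 ≤ q := hq.1
    have q2 : q ≤ 1 := hq.2
    rcases a3 with ⟨c1, c2, -⟩ | ⟨c1, c2, c3⟩ | ⟨c1, c2, -⟩
    · rcases b3 with ⟨d1, d2, -⟩ | ⟨d1, d2, -⟩ | ⟨d1, d2, -⟩
      · rcases eq_or_lt_of_le q2 with h5 | h5
        · rw [h5] at e2; linarith
        · nlinarith [mul_pos (sub_pos.mpr h5) (sub_pos.mpr c2), mul_nonneg q1 (sub_pos.mpr d2).le]
      · rw [c1] at d1; norm_num at d1
      · rw [c1] at d1; norm_num at d1
    · rcases c3 with h5 | h5
      · exact hxl h5
      · exact hxr h5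
    · rcases b3 with ⟨d1, d2, -⟩ | ⟨d1, d2, -⟩ | ⟨d1, d2, -⟩
      · rw [c1] at d1; norm_num at d1
      · rw [c1] at d1; norm_num at d1
      · rcases eq_or_lt_of_le q2 with h5 | h5
        · rw [h5] at e2; linarith
        · nlinarith [mul_pos (sub_pos.mpr h5) (sub_pos.mpr c2), mul_nonneg q1 (sub_pos.mpr d2).le]
  -- the homotopy
  have hty : ∀ ψ : ℝ → ℝ × ℝ, ContinuousOn ψ (Icc 0 1) →
      (∀ t ∈ Icc (0 : ℝ) 1, (ψ t).2 = g f (ψ t).1) →
      (∀ t ∈ Icc (0 : ℝ) 1, (ψ t).1 ∈ Icc (D.pos (l e)).1 (D.pos (r e)).1) →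
      ψ 0 = D.pos (D.src e) → ψ 1 = D.pos (D.tgt e) → D.DeformsTo e ψ := by
    intro ψ hψ h1 h2 h3 h4
    have m0 : (0 : ℝ) ∈ Icc (0 : ℝ) 1 := ⟨le_refl _, zero_le_one⟩
    have m1 : (1 : ℝ) ∈ Icc (0 : ℝ) 1 := ⟨zero_le_one, le_refl _⟩
    refine ⟨fun p => ((1 - p.1) * (D.curve e p.2).1 + p.1 * (ψ p.2).1,
      (1 - p.1) * g e ((1 - p.1) * (D.curve e p.2).1 + p.1 * (ψ p.2).1) +
        p.1 * g f ((1 - p.1) * (D.curve e p.2).1 + p.1 * (ψ p.2).1)), ?_, ?_, ?_, ?_⟩
    · have c1 : ContinuousOn (fun p : ℝ × ℝ => (D.curve e p.2).1)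
          (Icc (0 : ℝ) 1 ×ˢ Icc (0 : ℝ) 1) :=
        continuous_fst.comp_continuousOn
          ((D.curve_cont e).comp continuousOn_snd (fun p hp => hp.2))
      have c2 : ContinuousOn (fun p : ℝ × ℝ => (ψ p.2).1) (Icc (0 : ℝ) 1 ×ˢ Icc (0 : ℝ) 1) :=
        continuous_fst.comp_continuousOn (hψ.comp continuousOn_snd (fun p hp => hp.2))
      have c3 : ContinuousOn (fun p : ℝ × ℝ => (1 - p.1) * (D.curve e p.2).1 + p.1 * (ψ p.2).1)
          (Icc (0 : ℝ) 1 ×ˢ Icc (0 : ℝ) 1) :=
        ((continuousOn_const.sub continuousOn_fst).mul c1).add (continuousOn_fst.mul c2)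
      have c4 := (hd e).cont.comp_continuousOn c3
      have c5 := (hd f).cont.comp_continuousOn c3
      exact c3.prodMk (((continuousOn_const.sub continuousOn_fst).mul c4).add
        (continuousOn_fst.mul c5))
    · intro t ht
      constructor
      · apply Prod.ext
        · simp
        · simp only [sub_zero, one_mul, zero_mul, add_zero]
          exact ((hd e).height t ht).symm
      · apply Prod.ext
        · simp
        · simp only [sub_self, one_mul, zero_mul, zero_add]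
          exact (h1 t ht).symm
    · intro q hq
      have k0 : g e (D.pos (D.src e)).1 = (D.pos (D.src e)).2 := by
        rw [← D.curve_zero e]; exact ((hd e).height 0 m0).symm
      have k1 : g e (D.pos (D.tgt e)).1 = (D.pos (D.tgt e)).2 := by
        rw [← D.curve_one e]; exact ((hd e).height 1 m1).symm
      have k2 : g f (D.pos (D.src e)).1 = (D.pos (D.src e)).2 := by
        rw [← h3]; exact (h1 0 m0).symm
      have k3 : g f (D.pos (D.tgt e)).1 = (D.pos (D.tgt e)).2 := by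
        rw [← h4]; exact (h1 1 m1).symm
      constructor
      · simp only [h3, D.curve_zero e]
        have : (1 - q) * (D.pos (D.src e)).1 + q * (D.pos (D.src e)).1 =
            (D.pos (D.src e)).1 := by ring
        rw [this, k0, k2]
        apply Prod.ext
        · rfl
        · simp only; ring
      · simp only [h4, D.curve_one e]
        have : (1 - q) * (D.pos (D.tgt e)).1 + q * (D.pos (D.tgt e)).1 =
            (D.pos (D.tgt e)).1 := by ring
        rw [this, k1, k3]
        apply Prod.ext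
        · rfl
        · simp only; ring
    · intro q hq t ht x hx1 hx2
      have r1 := (hd e).range t ht
      have r2 := h2 t ht
      apply av _ _ q hq x
      · rcases (hd e).ends with ⟨h5, h6⟩ | ⟨h5, h6⟩
        · rw [h5]; exact hx1
        · rw [h5]; exact hx2
      · rcases (hd e).ends with ⟨h5, h6⟩ | ⟨h5, h6⟩
        · rw [h6]; exact hx2
        · rw [h6]; exact hx1
      · exact convex_Icc _ _ r1 r2 (by linarith [hq.2]) hq.1 (by ring)
  have cf := D.curve_cont f
  have rev : ContinuousOn (fun t => D.curve f (1 - t)) (Icc 0 1) := by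
    apply cf.comp ((continuous_const.sub continuous_id).continuousOn (s := Icc (0 : ℝ) 1))
    intro t ht
    change 1 - t ∈ Icc (0 : ℝ) 1
    exact ⟨by linarith [ht.2], by linarith [ht.1]⟩
  have revm : ∀ t ∈ Icc (0 : ℝ) 1, 1 - t ∈ Icc (0 : ℝ) 1 := by
    intro t ht; exact ⟨by linarith [ht.2], by linarith [ht.1]⟩
  have same : D.src e = D.src f → D.tgt e = D.tgt f → D.Homotopic e f := by
    intro h1 h2
    left
    refine ⟨h1, h2, hty _ cf (hd f).height ?_ ?_ ?_⟩
    · rw [hl', hr']; exact (hd f).range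
    · rw [h1]; exact D.curve_zero f
    · rw [h2]; exact D.curve_one f
  have opp : D.src e = D.tgt f → D.tgt e = D.src f → D.Homotopic e f := by
    intro h1 h2
    right
    refine ⟨h1, h2, hty _ rev (fun t ht => (hd f).height _ (revm t ht)) ?_ ?_ ?_⟩
    · rw [hl', hr']; exact fun t ht => (hd f).range _ (revm t ht)
    · simp only [sub_zero]; rw [h1]; exact D.curve_one f
    · simp only [sub_self]; rw [h2]; exact D.curve_zero f
  rcases (hd e).ends with ⟨h1, h2⟩ | ⟨h1, h2⟩ <;> rcases (hd f).ends with ⟨h3, h4⟩ | ⟨h3, h4⟩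
  · exact same (by rw [← h1, ← h3, hl']) (by rw [← h2, ← h4, hr'])
  · exact opp (by rw [← h1, ← h3, hl']) (by rw [← h2, ← h4, hr'])
  · exact opp (by rw [← h2, ← h4, hr']) (by rw [← h1, ← h3, hl'])
  · exact same (by rw [← h2, ← h4, hr']) (by rw [← h1, ← h3, hl'])

end main

/-- A multigraph with `n` vertices that has a monotone non-homotopic drawing in which any two
edges cross at most `k` times has at most `3n - 5 + 4 (C(n-2,2) + ... + C(n-2,k+1))` edges if
`n ≥ 2`, and in any case at most `4 (C(n,1) + ... + C(n,k+1))` edges. -/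
theorem result (V E : Type) [Fintype V] [Fintype E] (D : Drawing V E) (k : ℕ)
    (hmono : D.Monotone) (hnh : D.NonHomotopic) (hk : D.CrossAtMost k) :
    (2 ≤ Fintype.card V → Fintype.card E ≤ 3 * Fintype.card V - 5 +
      4 * ∑ l ∈ Finset.range k, (Fintype.card V - 2).choose (l + 2)) ∧
    Fintype.card E ≤ 4 * ∑ l ∈ Finset.range (k + 1), (Fintype.card V).choose (l + 1) := by
  classical
  obtain ⟨idx, hn, hinj, hmon, hsur⟩ := exists_idx D.pos D.pos_inj
  choose g l r hd using edge_data D hmono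
  have hwi := word_inj hd hinj hmon hnh
  set F : Finset Ed := Finset.univ.image (word D idx g l r) with hF
  have hcard : F.card = Fintype.card E := by
    rw [hF, Finset.card_image_of_injective _ hwi, Finset.card_univ]
  have hV : Vd (Fintype.card V - 1) F := by
    intro w hw
    obtain ⟨e, -, rfl⟩ := Finset.mem_image.mp hw
    refine ⟨hmon _ _ (hd e).lt, ?_, word_sub e⟩
    have := hn (r e)
    change idx (r e) ≤ _
    omega
  have hG : Good (k + 1) (Fintype.card V - 1) F := by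
    intro w hw w' hw' hne
    obtain ⟨e, -, rfl⟩ := Finset.mem_image.mp hw
    obtain ⟨f, -, rfl⟩ := Finset.mem_image.mp hw'
    have hef : e ≠ f := by
      intro h; exact hne (by rw [h])
    exact not_P hd hinj hmon hn hsur hk hef _
  have hB := H_bound _ k F hV hG
  rw [hcard] at hB
  have main : 2 ≤ Fintype.card V → Fintype.card E ≤ 3 * Fintype.card V - 5 +
      4 * ∑ l ∈ Finset.range k, (Fintype.card V - 2).choose (l + 2) := by
    intro h2
    obtain ⟨m, hm⟩ : ∃ m, Fintype.card V = m + 2 := ⟨Fintype.card V - 2, by omega⟩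
    rw [hm] at hB ⊢
    have e1 : m + 2 - 1 = m + 1 := by omega
    have e2 : m + 2 - 2 = m := by omega
    rw [e1, Hb_eq] at hB
    rw [e2]
    omega
  refine ⟨main, ?_⟩
  by_cases h2 : 2 ≤ Fintype.card V
  · have h3 := main h2
    have h4 : ∑ l ∈ Finset.range (k + 1), (Fintype.card V).choose (l + 1) =
        ∑ l ∈ Finset.range k, (Fintype.card V).choose (l + 2) + Fintype.card V := by
      rw [Finset.sum_range_succ']
      simp
    have h5 : ∑ l ∈ Finset.range k, (Fintype.card V - 2).choose (l + 2) ≤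
        ∑ l ∈ Finset.range k, (Fintype.card V).choose (l + 2) := by
      apply Finset.sum_le_sum
      intro l _
      exact Nat.choose_le_choose _ (by omega)
    rw [h4]
    omega
  · have h6 : Fintype.card V - 1 = 0 := by omega
    rw [h6] at hB
    simp only [Hb] at hB
    omega

end Pool.Agent.Results.MP_6a261b_co.MonotoneBound
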